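import Pool.Agent.Helper76.Q5P3.StC

/-!
# Project T5 (levels `5 * 3^n`), module DIME: the dimension of subEH
-/

set_option autoImplicit false

namespace Pool.Agent.Helper27.Q5P3

open Pool.Agent.Helper76.Q5P3
open Pool.Agent.Helper76.TH3 (Pt trp ng dR Iv Kl Dv Ty anti3 inv3 HDimK3 HSplit3)

section lin

variable {W W' : Type} [AddCommGroup W] [Module ℂ W] [FiniteDimensional ℂ W] [AddCommGroup W']
  [Module ℂ W']

private theorem rn (f : W →ₗ[ℂ] W') (V : Submodule ℂ W) :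
    Module.finrank ℂ (V.map f) + Module.finrank ℂ ↥(V ⊓ LinearMap.ker f) =
      Module.finrank ℂ V := by
  have h := LinearMap.finrank_range_add_finrank_ker (f.domRestrict V)
  rw [LinearMap.range_domRestrict, LinearMap.ker_domRestrict] at h
  have h2 : Module.finrank ℂ ↥((LinearMap.ker f).comap V.subtype) =
      Module.finrank ℂ ↥(V ⊓ LinearMap.ker f) := by
    rw [← Submodule.map_comap_subtype, Submodule.finrank_map_subtype_eq]
  rw [h2] at h
  exact h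

end lin

section lin2

variable {W W' : Type} [AddCommGroup W] [Module ℂ W] [FiniteDimensional ℂ W] [AddCommGroup W']
  [Module ℂ W'] [FiniteDimensional ℂ W']

private theorem fr_prod (V : Submodule ℂ W) (V' : Submodule ℂ W') :
    Module.finrank ℂ ↥(V.prod V') = Module.finrank ℂ V + Module.finrank ℂ V' := by
  have h1 : V.prod V' = LinearMap.range (V.subtype.prodMap V'.subtype) := by
    rw [LinearMap.range_prodMap, Submodule.range_subtype, Submodule.range_subtype]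
  rw [h1, LinearMap.finrank_range_of_inj, Module.finrank_prod]
  rintro ⟨a, b⟩ ⟨a', b'⟩ h
  simp only [LinearMap.prodMap_apply, Submodule.subtype_apply, Prod.mk.injEq,
    SetLike.coe_eq_coe] at h
  rw [h.1, h.2]

end lin2

private theorem pw0 {m : ℕ} (hm : 1 ≤ m) : (3 : ZMod (3 ^ m)) * 3 ^ (m - 1) = 0 := by
  rw [← pow_succ', Nat.sub_add_cancel hm]
  have h3 := ZMod.natCast_self (3 ^ m)
  push_cast at h3
  exact h3

private theorem red {m : ℕ} (hm : 1 ≤ m) (t : ℤ) :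
    (t : ZMod (3 ^ m)) * 3 ^ (m - 1) = ((t : ZMod 3).val : ZMod (3 ^ m)) * 3 ^ (m - 1) := by
  have h1 : ((t : ZMod 3).val : ℤ) = t % 3 := by
    rw [ZMod.val_intCast]
    norm_num
  have h2 : (((t : ZMod 3).val : ℕ) : ZMod (3 ^ m)) = ((t % 3 : ℤ) : ZMod (3 ^ m)) := by
    rw [← h1]
    push_cast
    rfl
  rw [h2]
  have h3 : t = t % 3 + 3 * (t / 3) := (Int.emod_add_mul_ediv t 3).symm
  have h4 : (t : ZMod (3 ^ m)) = ((t % 3 : ℤ) : ZMod (3 ^ m)) + 3 * ((t / 3 : ℤ) : ZMod (3 ^ m)) := by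
    conv_lhs => rw [h3]
    push_cast
    ring
  rw [h4]
  linear_combination ((t / 3 : ℤ) : ZMod (3 ^ m)) * pw0 hm

private theorem sum_zmod (g : ℕ → ℂ) :
    ∑ i ∈ Finset.range 3, g i = ∑ z : ZMod 3, g z.val := by
  have : ∀ h : ZMod 3 → ℂ, ∑ z : ZMod 3, h z = ∑ i : Fin 3, h i := fun h => rfl
  rw [Finset.sum_range, this]
  rfl

private theorem sum_s {m : ℕ} (hm : 1 ≤ m) (s : ℤ) (hs : ¬ (3 : ℤ) ∣ s)
    (g : ZMod (3 ^ m) → ℂ) :
    ∑ i ∈ Finset.range 3, g (s * ((i : ZMod (3 ^ m)) * 3 ^ (m - 1))) =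
      ∑ i ∈ Finset.range 3, g ((i : ZMod (3 ^ m)) * 3 ^ (m - 1)) := by
  have hf : Fact (Nat.Prime 3) := ⟨by norm_num⟩
  have hs0 : (s : ZMod 3) ≠ 0 := by
    intro h
    exact hs ((ZMod.intCast_zmod_eq_zero_iff_dvd s 3).1 h)
  rw [sum_zmod (fun i => g (s * ((i : ZMod (3 ^ m)) * 3 ^ (m - 1)))),
    sum_zmod (fun i => g ((i : ZMod (3 ^ m)) * 3 ^ (m - 1)))]
  refine Fintype.sum_equiv (Equiv.mulLeft₀ (s : ZMod 3) hs0) _ _ fun z => ?_
  have h1 := red hm (s * (z.val : ℤ))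
  have h2 : ((s * (z.val : ℤ) : ℤ) : ZMod 3) = (s : ZMod 3) * z := by
    push_cast
    rw [ZMod.natCast_zmod_val]
  rw [h2] at h1
  change g (s * ((z.val : ZMod (3 ^ m)) * 3 ^ (m - 1))) =
    g ((((s : ZMod 3) * z).val : ZMod (3 ^ m)) * 3 ^ (m - 1))
  rw [← h1]
  congr 1
  push_cast
  ring

private theorem anti_s {m : ℕ} (hm : 1 ≤ m) {F : Pt m → ℂ} (hF : F ∈ anti3 m) (s : ℤ)
    (hs : ¬ (3 : ℤ) ∣ s) (x y : ZMod (3 ^ m)) :
    ∑ i ∈ Finset.range 3, F (x + s * (i * 3 ^ (m - 1)), y) = 0 ∧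
      ∑ i ∈ Finset.range 3, F (x, y + s * (i * 3 ^ (m - 1))) = 0 := by
  obtain ⟨h1, h2⟩ := hF (x, y)
  constructor
  · rw [sum_s hm s hs (fun t => F (x + t, y))]
    exact h1
  · rw [sum_s hm s hs (fun t => F (x, y + t))]
    exact h2

private theorem dv_step {m : ℕ} (hm : 1 ≤ m) {s : ℤ} {φ : ZMod (3 ^ m) → ZMod (3 ^ m)}
    (h : Dv s φ) (x : ZMod (3 ^ m)) (i : ℕ) :
    φ (x + i * 3 ^ (m - 1)) = φ x + s * (i * 3 ^ (m - 1)) := by
  have h1 := h (m - 1) (x + i * 3 ^ (m - 1)) x ⟨i, by ring⟩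
  have h2 : (3 : ZMod (3 ^ m)) ^ (m - 1 + 1) = 0 := by
    rw [Nat.sub_add_cancel hm]
    have h3 := ZMod.natCast_self (3 ^ m)
    push_cast at h3
    exact h3
  rw [h2, zero_dvd_iff] at h1
  linear_combination h1

private theorem anti_comp {m n : ℕ} (hm : 1 ≤ m) {r : Pt m → Pt m} (hr : Ty n r) {F : Pt m → ℂ}
    (hF : F ∈ anti3 m) : (fun p => F (r p)) ∈ anti3 m := by
  rcases hr with ⟨_, s, s', φ, φ', hs, _, hs', _, hφ, hφ', hr⟩ | ⟨_, s, s', ψ, ψ', hs, hs', hψ, hψ', hr⟩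
  · intro p
    simp only [hr, dv_step hm hφ, dv_step hm hφ']
    exact ⟨(anti_s hm hF s hs (φ p.1) (φ' p.2)).1, (anti_s hm hF s' hs' (φ p.1) (φ' p.2)).2⟩
  · intro p
    simp only [hr, dv_step hm hψ, dv_step hm hψ']
    exact ⟨(anti_s hm hF s' hs' (ψ p.2) (ψ' p.1)).2, (anti_s hm hF s hs (ψ p.2) (ψ' p.1)).1⟩

/-- The space in which `subEH` lies. -/
private abbrev Sp (m : ℕ) : Type := ((Pt m → ℂ) × (Pt m → ℂ)) × ((Pt m → ℂ) × (Pt m → ℂ))

private def K1 {m : ℕ} : Sp m →ₗ[ℂ] (Pt m → ℂ) where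
  toFun F p := hhH F.1.1 F.1.2 p + hhH F.1.1 F.1.2 (c1H p)
  map_add' F F' := by
    funext p
    simp only [hhH, Prod.fst_add, Prod.snd_add, Pi.add_apply]
    ring
  map_smul' c F := by
    funext p
    simp only [hhH, Prod.smul_fst, Prod.smul_snd, Pi.smul_apply, smul_eq_mul, RingHom.id_apply]
    ring

private def K2 {m : ℕ} : Sp m →ₗ[ℂ] (Pt m → ℂ) where
  toFun F p := ggH F.1.2 F.2.1 F.2.2 p + ggH F.1.2 F.2.1 F.2.2 (c5H p)
  map_add' F F' := by
    funext p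
    simp only [ggH, Prod.fst_add, Prod.snd_add, Pi.add_apply]
    ring
  map_smul' c F := by
    funext p
    simp only [ggH, Prod.smul_fst, Prod.smul_snd, Pi.smul_apply, smul_eq_mul, RingHom.id_apply]
    ring

private theorem K1_apply {m : ℕ} (F : Sp m) (p : Pt m) :
    K1 F p = hhH F.1.1 F.1.2 p + hhH F.1.1 F.1.2 (c1H p) := rfl

private theorem K2_apply {m : ℕ} (F : Sp m) (p : Pt m) :
    K2 F p = ggH F.1.2 F.2.1 F.2.2 p + ggH F.1.2 F.2.1 F.2.2 (c5H p) := rfl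

private theorem p1 : (((1 : ℤ) : ℂ)) = 1 := by push_cast; rfl

/-- `hhH f l` is invariant under `swH`. -/
private theorem hh_sw {m : ℕ} (hs : ∀ p : Pt m, swH (swH p) = p) {f l : Pt m → ℂ}
    (hf : ∀ p, f (swH p) = f p) (p : Pt m) : hhH f l (swH p) = hhH f l p := by
  simp only [hhH]
  rw [hs p, hf p]
  ring

/-- `ggH l w M` is invariant under `c2H`. -/
private theorem gg_c2 {m : ℕ} (hc : ∀ p : Pt m, c2H (c2H p) = p) {l w M : Pt m → ℂ}
    (hM : ∀ p, M (c2H p) = M p) (p : Pt m) : ggH l w M (c2H p) = ggH l w M p := by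
  simp only [ggH]
  rw [hc p, hM p]
  ring

private theorem hh_mem {m : ℕ} (hm : 1 ≤ m) (hsw : Ty 1 (swH : Pt m → Pt m))
    {f l : Pt m → ℂ} (hf : f ∈ anti3 m) (hl : l ∈ anti3 m) : hhH f l ∈ anti3 m := by
  have e : hhH f l = f - l - (fun p => l (swH p)) := rfl
  rw [e]
  exact Submodule.sub_mem _ (Submodule.sub_mem _ hf hl) (anti_comp hm hsw hl)

private theorem gg_mem {m : ℕ} (hm : 1 ≤ m) (hc : Ty 1 (c2H : Pt m → Pt m))
    {l w M : Pt m → ℂ} (hl : l ∈ anti3 m) (hw : w ∈ anti3 m) (hM : M ∈ anti3 m) :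
    ggH l w M ∈ anti3 m := by
  have e : ggH l w M = l + w + (fun p => l (c2H p)) + (fun p => w (c2H p)) - M := rfl
  rw [e]
  exact Submodule.sub_mem _ (Submodule.add_mem _ (Submodule.add_mem _ (Submodule.add_mem _ hl hw)
    (anti_comp hm hc hl)) (anti_comp hm hc hw)) hM

/-- **Module DIME.** -/
theorem hDimE : StHDimE := by
  intro ht hd hk hs m hm
  obtain ⟨⟨a1, a2, a3, a4⟩, -, -, ⟨c1, c2, c3, c4⟩, ⟨b1, b2, b3⟩, ⟨d1, d2, d3⟩, ⟨r1, r2⟩⟩ := ht m
  obtain ⟨eV, q1⟩ := hk m hm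
  have eF := q1 ng swH 0 1 1 1 1 a1 a2 a3 a4 (Or.inl rfl) (Or.inl rfl)
  have eM := q1 (dR 1) c2H 0 1 1 1 1 c1 c2 c3 c4 (Or.inl rfl) (Or.inl rfl)
  have e1 := q1 swH c1H 1 1 0 1 1 b1 a3 b2 b3 (Or.inl rfl) (Or.inl rfl)
  have e2 := q1 c2H c5H 1 1 0 1 1 d1 c3 d2 d3 (Or.inl rfl) (Or.inl rfl)
  have eW := hd m hm rhH 1 1 r1 r2 (Or.inl rfl)
  rw [p1] at eF eM e1 e2 eW
  set Vf := inv3 (m := m) ng swH 1 1 with hVf
  set VM := inv3 (m := m) (dR 1) c2H 1 1 with hVM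
  set Vw := inv3 (m := m) rhH rhH 1 1 with hVw
  set T1 := inv3 (m := m) swH c1H 1 1 with hT1
  set T2 := inv3 (m := m) c2H c5H 1 1 with hT2
  set Q : Sp m →ₗ[ℂ] ((Pt m → ℂ) × (Pt m → ℂ)) := LinearMap.prod K1 K2 with hQ
  have hQa : ∀ F, Q F = (K1 F, K2 F) := fun _ => rfl
  have hmap : ((Vf.prod (anti3 m)).prod (Vw.prod VM)).map Q = T1.prod T2 := by
    apply le_antisymm
    · rintro _ ⟨F, hF, rfl⟩
      obtain ⟨⟨hF1, hF2⟩, hF3, hF4⟩ := hF
      have hfs : ∀ p, F.1.1 (swH p) = F.1.1 p := by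
        intro p
        rw [(hF1.2 p).2, one_mul]
      have hMs : ∀ p, F.2.2 (c2H p) = F.2.2 p := by
        intro p
        rw [(hF4.2 p).2, one_mul]
      have hh := hh_mem hm a3 hF1.1 hF2
      have hg := gg_mem hm c3 hF2 hF3.1 hF4.1
      have hhs := fun p => hh_sw (l := F.1.2) a1.2.1 hfs p
      have hgc := fun p => gg_c2 (l := F.1.2) (w := F.2.1) c1.2.1 hMs p
      rw [hQa]
      refine ⟨⟨?_, fun p => ⟨?_, ?_⟩⟩, ?_, fun p => ⟨?_, ?_⟩⟩
      · have e : K1 F = hhH F.1.1 F.1.2 + (fun p => hhH F.1.1 F.1.2 (c1H p)) := rfl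
        rw [e]
        exact Submodule.add_mem _ hh (anti_comp hm b2 hh)
      · show K1 F (swH p) = 1 * K1 F p
        rw [K1_apply, K1_apply, hhs p, ← b1.2.2 p, hhs (c1H p)]
        ring
      · show K1 F (c1H p) = 1 * K1 F p
        rw [K1_apply, K1_apply, b1.2.1 p]
        ring
      · have e : K2 F = ggH F.1.2 F.2.1 F.2.2 + (fun p => ggH F.1.2 F.2.1 F.2.2 (c5H p)) := rfl
        rw [e]
        exact Submodule.add_mem _ hg (anti_comp hm d2 hg)
      · show K2 F (c2H p) = 1 * K2 F p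
        rw [K2_apply, K2_apply, hgc p, ← d1.2.2 p, hgc (c5H p)]
        ring
      · show K2 F (c5H p) = 1 * K2 F p
        rw [K2_apply, K2_apply, d1.2.1 p]
        ring
    · rintro ⟨φ, ψ⟩ ⟨hφ, hψ⟩
      simp only at hφ hψ
      obtain ⟨f0, hf0, l0, hl0, hfl0, hfn0, hld0⟩ := hs 1 m hm ((4 : ℂ)⁻¹ • φ + (4 : ℂ)⁻¹ • ψ)
        (Submodule.add_mem _ (Submodule.smul_mem _ _ hφ.1) (Submodule.smul_mem _ _ hψ.1))
      have s0 := anti_comp hm a3 hf0
      have s1 := anti_comp hm c3 hl0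
      refine ⟨((f0 + (fun p => f0 (swH p)), f0 - (4 : ℂ)⁻¹ • φ), (0, -(l0 + fun p => l0 (c2H p)))),
        ⟨⟨⟨?_, fun p => ⟨?_, ?_⟩⟩, ?_⟩, Submodule.zero_mem _, ?_, fun p => ⟨?_, ?_⟩⟩, ?_⟩
      · exact Submodule.add_mem _ hf0 s0
      · simp only [Pi.add_apply]
        rw [← a1.2.2 p, hfn0 p, hfn0 (swH p)]
        ring
      · simp only [Pi.add_apply]
        rw [a1.2.1 p]
        ring
      · exact Submodule.sub_mem _ hf0 (Submodule.smul_mem _ _ hφ.1)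
      · exact Submodule.neg_mem _ (Submodule.add_mem _ hl0 s1)
      · simp only [Pi.neg_apply, Pi.add_apply]
        rw [← c1.2.2 p, hld0 p, hld0 (c2H p)]
        ring
      · simp only [Pi.neg_apply, Pi.add_apply]
        rw [c1.2.1 p]
        ring
      · rw [hQa, Prod.mk.injEq]
        constructor
        · funext p
          rw [K1_apply]
          simp only [hhH, Pi.sub_apply, Pi.add_apply, Pi.smul_apply, smul_eq_mul]
          rw [(hφ.2 (c1H p)).1, (hφ.2 p).2, (hφ.2 p).1]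
          ring
        · funext p
          have x1 := hfl0 p
          have x2 := hfl0 (c2H p)
          have x3 := hfl0 (c5H p)
          have x4 := hfl0 (c2H (c5H p))
          simp only [Pi.add_apply, Pi.smul_apply, smul_eq_mul] at x1 x2 x3 x4
          rw [(hψ.2 p).1] at x2
          rw [(hψ.2 p).2] at x3
          rw [(hψ.2 (c5H p)).1, (hψ.2 p).2] at x4
          rw [K2_apply]
          simp only [ggH, Pi.sub_apply, Pi.add_apply, Pi.neg_apply, Pi.zero_apply, Pi.smul_apply,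
            smul_eq_mul]
          linear_combination -x1 - x2 - x3 - x4
  have hker : ((Vf.prod (anti3 m)).prod (Vw.prod VM)) ⊓ LinearMap.ker Q = subEH m := by
    ext F
    constructor
    · rintro ⟨⟨⟨h1, h2⟩, h3, h4⟩, h8⟩
      rw [SetLike.mem_coe, LinearMap.mem_ker, hQa, Prod.mk_eq_zero] at h8
      refine ⟨h1, h2, h3, h4, fun p => ?_, fun p => ?_⟩
      · have := congrFun h8.1 p
        simp only [K1_apply, Pi.zero_apply] at this
        exact this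
      · have := congrFun h8.2 p
        simp only [K2_apply, Pi.zero_apply] at this
        exact this
    · rintro ⟨h1, h2, h3, h4, h8, h9⟩
      refine ⟨⟨⟨h1, h2⟩, h3, h4⟩, ?_⟩
      rw [SetLike.mem_coe, LinearMap.mem_ker, hQa, Prod.mk_eq_zero]
      constructor
      · funext p
        simp only [K1_apply, Pi.zero_apply]
        exact h8 p
      · funext p
        simp only [K2_apply, Pi.zero_apply]
        exact h9 p
  have h6 := rn Q ((Vf.prod (anti3 m)).prod (Vw.prod VM))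
  rw [hmap, hker] at h6
  simp only [fr_prod] at h6
  zify at h6 eV ⊢
  push_cast at eF eM e1 e2 eW
  linarith

end Pool.Agent.Helper27.Q5P3
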